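import Pool.Agent.Helper98.KN.Num
import Pool.Agent.Helper94.CY.Main
import Pool.Agent.KT.Geo

/-!
# Products of strict Calabi-Yau varieties and their Hodge numbers
-/

set_option autoImplicit false

namespace Pool.Agent.Hodge81

open Complex Module LaurentPolynomial
open Pool.Agent.CY94

universe u

/-- the weighted sum of the Hodge numbers of a factor -/
noncomputable def dGen {R : Type*} [CommRing R] (w : ℕ × ℕ → R) (d : Diamond) : R :=
  ∑ x ∈ Finset.range (d.1 + 1) ×ˢ Finset.range (d.1 + 1), (d.2 x.1 x.2 : R) * w x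

theorem dGen_eq {m : ℕ} {A : Type*} [Ring A] [Algebra ℂ A] (Z : HodgeRing m A) {R : Type*}
    [CommRing R] (w : ℕ × ℕ → R) : dGen w (m, Z.h) = Z.gen w := rfl

/-- the list contains only strict Calabi-Yau varieties -/
def Realized (d : Diamond) : Prop :=
  ∃ (A : Type u) (_ : Ring A) (_ : Algebra ℂ A) (_ : FiniteDimensional ℂ A)
    (Z : HodgeRing d.1 A) (P : PolyvectorAction Z), IsStrictCY P ∧ d.2 = Z.h

section

variable {n : ℕ} {A : Type u} [Ring A] [Algebra ℂ A] {X : HodgeRing n A} {P : PolyvectorAction X}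
  {L : Multiset Diamond}

theorem IsCYProduct.realized (h : IsCYProduct P L) : ∀ d ∈ L, Realized.{u} d := by
  induction h with
  | point P => intro d hd; exact absurd hd (Multiset.notMem_zero d)
  | @single m A _ _ _ Z P h =>
    intro d hd
    rw [Multiset.mem_singleton] at hd
    subst hd
    exact ⟨A, inferInstance, inferInstance, inferInstance, Z, P, h, rfl⟩
  | prod U hU P PW PZ K L M _ _ ih1 ih2 =>
    intro d hd
    rcases Multiset.mem_add.1 hd with h | h
    · exact ih1 d h
    · exact ih2 d h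

theorem IsCYProduct.gen_eq (h : IsCYProduct P L) {R : Type*} [CommRing R]
    (w : ℕ × ℕ → R) (w0 : w 0 = 1) (hw : ∀ x y, w (x + y) = w x * w y) :
    X.gen w = (L.map (dGen w)).prod := by
  induction h with
  | @point A _ _ _ Z P =>
    rw [Multiset.map_zero, Multiset.prod_zero]
    unfold HodgeRing.gen
    have h1 : Z.h 0 0 = 1 := Z.connected
    rw [zero_add, Finset.range_one, Finset.singleton_product_singleton, Finset.sum_singleton]
    change ((Z.h 0 0 : ℕ) : R) * w 0 = 1
    rw [h1, w0, Nat.cast_one, one_mul]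
  | single P h => rw [Multiset.map_singleton, Multiset.prod_singleton, dGen_eq]
  | prod U hU P PW PZ K L M _ _ ih1 ih2 =>
    rw [U.gen_mul w hw, ih1, ih2, Multiset.map_add, Multiset.prod_add]

end

/-- the weights of the holomorphic forms -/
noncomputable def fw (x : ℕ × ℕ) : Polynomial ℤ := if x.1 = 0 then Polynomial.X ^ x.2 else 0

theorem fw_zero : fw 0 = 1 := by simp [fw]

theorem fw_add (x y : ℕ × ℕ) : fw (x + y) = fw x * fw y := by
  unfold fw
  rw [Prod.fst_add, Prod.snd_add]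
  by_cases hx : x.1 = 0
  · by_cases hy : y.1 = 0
    · rw [if_pos (by omega), if_pos hx, if_pos hy, pow_add]
    · rw [if_neg (by omega), if_neg hy, mul_zero]
  · rw [if_neg (by omega), if_neg hx, zero_mul]

theorem coeff_gen_fw {n : ℕ} {A : Type*} [Ring A] [Algebra ℂ A] (X : HodgeRing n A) (q : ℕ) :
    (X.gen fw).coeff q = X.h 0 q := by
  unfold HodgeRing.gen
  rw [Polynomial.finsetSum_coeff, Finset.sum_product, Finset.sum_eq_single 0]
  · rw [Finset.sum_eq_single q]
    · unfold fw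
      rw [if_pos rfl, ← nsmul_eq_mul, Polynomial.coeff_smul, Polynomial.coeff_X_pow, if_pos rfl]
      simp
    · intro b _ hb
      unfold fw
      rw [if_pos rfl, ← nsmul_eq_mul, Polynomial.coeff_smul, Polynomial.coeff_X_pow,
        if_neg (Ne.symm hb)]
      simp
    · intro h
      rw [Finset.mem_range] at h
      rw [X.h_eq_zero (by omega)]
      simp
  · intro p _ hp
    refine Finset.sum_eq_zero fun q _ => ?_
    unfold fw
    rw [if_neg hp]
    simp
  · intro h
    exact absurd (Finset.mem_range.2 (Nat.succ_pos n)) h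

theorem IsStrictCY.h_top {m : ℕ} {A : Type*} [Ring A] [Algebra ℂ A] [FiniteDimensional ℂ A]
    {Z : HodgeRing m A}
    {P : PolyvectorAction Z} (h : IsStrictCY P) : Z.h 0 m = 1 := by
  rw [Z.h_conj]
  exact h.canonical.h_top

/-- the holomorphic forms of a strict Calabi-Yau variety -/
theorem IsStrictCY.h_forms {m : ℕ} {A : Type*} [Ring A] [Algebra ℂ A] [FiniteDimensional ℂ A]
    {Z : HodgeRing m A}
    {P : PolyvectorAction Z} (h : IsStrictCY P) (k : ℕ) :
    Z.h 0 k = if k = 0 ∨ k = m then 1 else 0 := by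
  split_ifs with hk
  · rcases hk with rfl | rfl
    · exact Z.connected
    · exact h.h_top
  · rcases lt_or_ge m k with h1 | h1
    · exact Z.h_eq_zero (Or.inr h1)
    · exact h.forms k (by omega) (by omega)

theorem Realized.gen_fw {d d' : Diamond} (h : Realized.{u} d) (h' : Realized.{u} d')
    (e : d.1 = d'.1) : dGen fw d = dGen fw d' := by
  obtain ⟨A, _, _, _, Z, P, hP, hd⟩ := h
  obtain ⟨A', _, _, _, Z', P', hP', hd'⟩ := h'
  obtain ⟨m, f⟩ := d
  obtain ⟨m', f'⟩ := d'
  dsimp only at e hd hd' Z Z'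
  subst e hd hd'
  rw [dGen_eq, dGen_eq]
  ext q
  rw [coeff_gen_fw, coeff_gen_fw, hP.h_forms, hP'.h_forms]

/-- the data of a factor which are seen by the derived category -/
def SameColumns (d d' : Diamond) : Prop :=
  d.1 = d'.1 ∧ dGen (HodgeRing.wt 1) d = dGen (HodgeRing.wt 1) d'

/-- the data of a factor which are seen by the derived category -/
def SameSignatures (d d' : Diamond) : Prop :=
  dGen (HodgeRing.wt (-1)) d = dGen (HodgeRing.wt (-1)) d'

theorem Realized.eq_four {d d' : Diamond} (h : Realized.{u} d) (h' : Realized.{u} d')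
    (hd : d.1 ≤ 4) (e : SameColumns d d') : d = d' := by
  obtain ⟨A, _, _, _, Z, P, hP, h1⟩ := h
  obtain ⟨A', _, _, _, Z', P', hP', h1'⟩ := h'
  obtain ⟨m, f⟩ := d
  obtain ⟨m', f'⟩ := d'
  obtain ⟨e1, e2⟩ := e
  dsimp only at e1 h1 h1' hd Z Z'
  subst e1 h1 h1'
  have h3 := hP.three
  have : Z.h = Z'.h := by
    funext p q
    exact four_main hd Z Z' e2 (hP.forms 1 (by omega) (by omega))
      (hP.forms 2 (by omega) (by omega)) (hP'.forms 1 (by omega) (by omega))
      (hP'.forms 2 (by omega) (by omega)) (fun _ => by rw [hP.chern, hP'.chern]) p q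
  rw [this]

theorem Realized.eq_five {d d' : Diamond} (h : Realized.{u} d) (h' : Realized.{u} d')
    (hd : d.1 ≤ 5) (e : SameColumns d d') (e' : SameSignatures d d') : d = d' := by
  obtain ⟨A, _, _, _, Z, P, hP, h1⟩ := h
  obtain ⟨A', _, _, _, Z', P', hP', h1'⟩ := h'
  obtain ⟨m, f⟩ := d
  obtain ⟨m', f'⟩ := d'
  obtain ⟨e1, e2⟩ := e
  dsimp only at e1 h1 h1' hd Z Z'
  subst e1 h1 h1'
  have h3 := hP.three
  have : Z.h = Z'.h := by
    funext p q
    exact small_main hd Z Z' e2 e' (hP.forms 1 (by omega) (by omega))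
      (hP.forms 2 (by omega) (by omega)) (hP'.forms 1 (by omega) (by omega))
      (hP'.forms 2 (by omega) (by omega)) (fun _ => by rw [hP.chern, hP'.chern]) p q
  rw [this]

theorem rel_forms {L L' : Multiset Diamond} (h : ∀ d ∈ L, Realized.{u} d)
    (h' : ∀ d ∈ L', Realized.{u} d) {r : Diamond → Diamond → Prop}
    (hr : ∀ d d', r d d' → d.1 = d'.1) (e : Multiset.Rel r L L') :
    (L.map (dGen fw)).prod = (L'.map (dGen fw)).prod := by
  induction e with
  | zero => rfl
  | @cons a b as bs hab _ ih =>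
    rw [Multiset.map_cons, Multiset.map_cons, Multiset.prod_cons, Multiset.prod_cons,
      ih (fun d hd => h d (Multiset.mem_cons_of_mem hd))
        (fun d hd => h' d (Multiset.mem_cons_of_mem hd)),
      (h a (Multiset.mem_cons_self a as)).gen_fw (h' b (Multiset.mem_cons_self b bs))
        (hr a b hab)]

theorem rel_eq {L L' : Multiset Diamond} {r : Diamond → Diamond → Prop}
    (hr : ∀ d ∈ L, ∀ d' ∈ L', r d d' → d = d') (e : Multiset.Rel r L L') : L = L' := by
  induction e with
  | zero => rfl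
  | @cons a b as bs hab _ ih =>
    rw [hr a (Multiset.mem_cons_self a as) b (Multiset.mem_cons_self b bs) hab,
      ih (fun d hd d' hd' => hr d (Multiset.mem_cons_of_mem hd) d' (Multiset.mem_cons_of_mem hd'))]

/-- a matching of the factors gives a matching of the lists -/
theorem rel_of_equiv {J J' : Type*} [Fintype J] [Fintype J'] {α β : Type*} (f : J → α)
    (f' : J' → β) {r : α → β → Prop} (π : J ≃ J') (h : ∀ j, r (f j) (f' (π j))) :
    Multiset.Rel r (Finset.univ.val.map f) (Finset.univ.val.map f') := by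
  classical
  have h1 : Finset.univ.val.map f' = Finset.univ.val.map (fun j => f' (π j)) := by
    have h2 : Finset.univ.val.map π = (Finset.univ : Finset J').val := by
      rw [← Finset.map_univ_equiv π]
      rfl
    rw [← h2, Multiset.map_map]
    rfl
  rw [h1, Multiset.rel_map]
  exact Multiset.rel_refl_of_refl_on fun j _ => h j

/-- the converse -/
theorem Rel.mono' {α β : Type*} {r r' : α → β → Prop} {L : Multiset α} {L' : Multiset β}
    (e : Multiset.Rel r L L') (h : ∀ a b, r a b → r' a b) : Multiset.Rel r' L L' :=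
  e.mono fun a _ b _ hab => h a b hab

section numbers

variable {n a b a' b' : ℕ} {A B C D C' D' : Type u}
  [Ring A] [Algebra ℂ A] [Ring B] [Algebra ℂ B]
  [Ring C] [Algebra ℂ C] [FiniteDimensional ℂ C] [Ring D] [Algebra ℂ D] [FiniteDimensional ℂ D]
  [Ring C'] [Algebra ℂ C'] [FiniteDimensional ℂ C']
  [Ring D'] [Algebra ℂ D'] [FiniteDimensional ℂ D']
  {X : HodgeRing n A} {Y : HodgeRing n B} {S : HodgeRing a C} {Z : HodgeRing b D}
  {S' : HodgeRing a' C'} {Z' : HodgeRing b' D'}

/-- the holomorphic forms of `S × Z` -/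
theorem forms_eq (U : Product X S Z) (U' : Product Y S' Z') {PZ : PolyvectorAction Z}
    {PZ' : PolyvectorAction Z'} {L L' : Multiset Diamond} (hZ : IsCYProduct PZ L)
    (hZ' : IsCYProduct PZ' L') (hS : ∀ q, S.h 0 q = S'.h 0 q)
    {r : Diamond → Diamond → Prop} (hr : ∀ d d', r d d' → d.1 = d'.1)
    (e : Multiset.Rel r L L') (q : ℕ) : X.h 0 q = Y.h 0 q := by
  have h1 : S.gen fw = S'.gen fw := by
    ext q
    rw [coeff_gen_fw, coeff_gen_fw, hS]
  have h2 : X.gen fw = Y.gen fw := by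
    rw [U.gen_mul _ fw_add, U'.gen_mul _ fw_add, h1, hZ.gen_eq _ fw_zero fw_add,
      hZ'.gen_eq _ fw_zero fw_add, rel_forms hZ.realized hZ'.realized hr e]
  have h3 := congrArg (fun f => f.coeff q) h2
  rw [coeff_gen_fw, coeff_gen_fw] at h3
  exact_mod_cast h3

theorem uw_zero : uw 0 = 1 := rfl

omit [FiniteDimensional ℂ C] [FiniteDimensional ℂ C'] in
theorem gen_congr' {R : Type*} [CommRing R] (ha : a = a') (w : ℕ × ℕ → R)
    (h : ∀ p q, S.h p q = S'.h p q) : S.gen w = S'.gen w := by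
  subst ha
  exact gen_congr S S' w h

/-- all Hodge numbers of `S × Z` -/
theorem numbers_eq (U : Product X S Z) (U' : Product Y S' Z') {PZ : PolyvectorAction Z}
    {PZ' : PolyvectorAction Z'} {L L' : Multiset Diamond} (hZ : IsCYProduct PZ L)
    (hZ' : IsCYProduct PZ' L') (ha : a = a') (hS : ∀ p q, S.h p q = S'.h p q)
    {r : Diamond → Diamond → Prop}
    (hr : ∀ d ∈ L, ∀ d' ∈ L', r d d' → d = d')
    (e : Multiset.Rel r L L') (p q : ℕ) : X.h p q = Y.h p q := by
  obtain rfl := rel_eq hr e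
  refine h_eq_of_gen X Y ?_ p q
  rw [U.gen_mul _ uw_add, U'.gen_mul _ uw_add, gen_congr' ha uw hS, hZ.gen_eq _ uw_zero uw_add,
    hZ'.gen_eq _ uw_zero uw_add]

/-- The numerical conclusion: from the matching of the factors to the Hodge numbers. -/
theorem conclude (U : Product X S Z) (U' : Product Y S' Z') {PZ : PolyvectorAction Z}
    {PZ' : PolyvectorAction Z'} {L L' : Multiset Diamond} (hZ : IsCYProduct PZ L)
    (hZ' : IsCYProduct PZ' L') (ha : a = a') (hS : ∀ p q, S.h p q = S'.h p q)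
    (e : Multiset.Rel (fun d d' => SameColumns d d' ∧ SameSignatures d d') L L') :
    (∀ q, X.h 0 q = Y.h 0 q) ∧
      ((∀ d ∈ L, d.1 ≤ 5) → L = L' ∧ ∀ p q, X.h p q = Y.h p q) := by
  refine ⟨forms_eq U U' hZ hZ' (hS 0) (fun d d' h => h.1.1) e, fun hd => ?_⟩
  have hr : ∀ d ∈ L, ∀ d' ∈ L', SameColumns d d' ∧ SameSignatures d d' → d = d' :=
    fun d h1 d' h2 h3 => (hZ.realized d h1).eq_five (hZ'.realized d' h2) (hd d h1) h3.1 h3.2
  exact ⟨rel_eq hr e, numbers_eq U U' hZ hZ' ha hS hr e⟩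

/-- The same without the signatures, for factors of dimension at most four. -/
theorem conclude_four (U : Product X S Z) (U' : Product Y S' Z') {PZ : PolyvectorAction Z}
    {PZ' : PolyvectorAction Z'} {L L' : Multiset Diamond} (hZ : IsCYProduct PZ L)
    (hZ' : IsCYProduct PZ' L') (ha : a = a') (hS : ∀ p q, S.h p q = S'.h p q)
    (e : Multiset.Rel SameColumns L L') :
    (∀ q, X.h 0 q = Y.h 0 q) ∧
      ((∀ d ∈ L, d.1 ≤ 4) → L = L' ∧ ∀ p q, X.h p q = Y.h p q) := by
  refine ⟨forms_eq U U' hZ hZ' (hS 0) (fun d d' h => h.1) e, fun hd => ?_⟩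
  have hr : ∀ d ∈ L, ∀ d' ∈ L', SameColumns d d' → d = d' :=
    fun d h1 d' h2 h3 => (hZ.realized d h1).eq_four (hZ'.realized d' h2) (hd d h1) h3
  exact ⟨rel_eq hr e, numbers_eq U U' hZ hZ' ha hS hr e⟩

end numbers

theorem coeff_gen_neg {m : ℕ} {A : Type*} [Ring A] [Algebra ℂ A] [FiniteDimensional ℂ A]
    (Z : HodgeRing m A) (s : ℤ) (c : ℕ) : (Z.gen (HodgeRing.wt s)).coeff (-(c : ℤ)) =
      s ^ c * ∑ j ∈ Finset.range (m + 1), s ^ j * (Z.h (c + j) j : ℤ) := by
  rw [HodgeRing.coeff_gen, Finset.sum_product, Finset.mul_sum]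
  refine Finset.sum_congr rfl fun p _ => ?_
  rw [Finset.sum_eq_single (c + p)]
  · rw [if_pos (by push_cast; ring), Z.h_conj, pow_add]
    ring
  · intro q _ hq
    rw [if_neg (by omega), mul_zero]
  · intro h
    rw [Finset.mem_range] at h
    rw [Z.h_eq_zero (by omega)]
    push_cast
    ring

/-- the columns and the signatures in terms of the Hodge numbers -/
theorem gen_wt_ext {m : ℕ} {A A' : Type*} [Ring A] [Algebra ℂ A] [FiniteDimensional ℂ A]
    [Ring A'] [Algebra ℂ A'] [FiniteDimensional ℂ A'] (Z : HodgeRing m A) (Z' : HodgeRing m A')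
    (s : ℤ) (h : ∀ c : ℕ, ∑ j ∈ Finset.range (m + 1), s ^ j * (Z.h (c + j) j : ℤ) =
      ∑ j ∈ Finset.range (m + 1), s ^ j * (Z'.h (c + j) j : ℤ)) :
    Z.gen (HodgeRing.wt s) = Z'.gen (HodgeRing.wt s) := by
  ext d
  rcases Int.le_total 0 d with hd | hd
  · obtain ⟨c, rfl⟩ := Int.eq_ofNat_of_zero_le hd
    rw [Z.coeff_gen_nat, Z'.coeff_gen_nat, h]
  · obtain ⟨c, hc⟩ := Int.eq_ofNat_of_zero_le (by omega : 0 ≤ -d)
    obtain rfl : d = -(c : ℤ) := by omega
    rw [coeff_gen_neg, coeff_gen_neg, h]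

theorem Realized.matches_iff {d d' : Diamond} (h : Realized.{u} d) (h' : Realized.{u} d') :
    d.Matches d' ↔ SameColumns d d' ∧ SameSignatures d d' := by
  obtain ⟨A, _, _, _, Z, P, hP, h1⟩ := h
  obtain ⟨A', _, _, _, Z', P', hP', h1'⟩ := h'
  obtain ⟨m, f⟩ := d
  obtain ⟨m', f'⟩ := d'
  dsimp only at h1 h1' Z Z'
  subst h1 h1'
  constructor
  · rintro ⟨e, h⟩
    dsimp only at e h
    subst e
    exact ⟨⟨rfl, gen_wt_ext Z Z' 1 (h 1 (Or.inl rfl))⟩, gen_wt_ext Z Z' (-1) (h (-1) (Or.inr rfl))⟩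
  · rintro ⟨⟨e, h1⟩, h2⟩
    dsimp only at e
    subst e
    refine ⟨rfl, ?_⟩
    rintro s (rfl | rfl) c
    · have h3 := congrArg (fun f => f.coeff (c : ℤ)) h1
      rw [← Z.coeff_gen_nat, ← Z'.coeff_gen_nat]
      exact h3
    · have h3 := congrArg (fun f => f.coeff (c : ℤ)) h2
      rw [← Z.coeff_gen_nat, ← Z'.coeff_gen_nat]
      exact h3

theorem rel_iff {L L' : Multiset Diamond} (h : ∀ d ∈ L, Realized.{u} d)
    (h' : ∀ d ∈ L', Realized.{u} d) :
    Multiset.Rel Diamond.Matches L L' ↔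
      Multiset.Rel (fun d d' => SameColumns d d' ∧ SameSignatures d d') L L' :=
  ⟨fun e => e.mono fun a ha b hb hab => ((h a ha).matches_iff (h' b hb)).1 hab,
    fun e => e.mono fun a ha b hb hab => ((h a ha).matches_iff (h' b hb)).2 hab⟩

end Pool.Agent.Hodge81
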