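import Pool.Agent.Helper51.SY.Small

/-!
# Strict Calabi-Yau varieties of dimension at most four are determined by their columns
-/

set_option autoImplicit false

namespace Pool.Agent.Hodge81

open Complex Module LaurentPolynomial

section

variable {m : ℕ} {A B : Type*} [Ring A] [Algebra ℂ A] [FiniteDimensional ℂ A]
  [Ring B] [Algebra ℂ B] [FiniteDimensional ℂ B]

/-- varieties of dimension at most four without one- and two-forms are determined by the columns
and the Chern number -/
theorem four_main (hm : m ≤ 4) (Z : HodgeRing m A) (Z' : HodgeRing m B)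
    (hcol : Z.gen (HodgeRing.wt 1) = Z'.gen (HodgeRing.wt 1))
    (z1 : Z.h 0 1 = 0) (z2 : Z.h 0 2 = 0) (z1' : Z'.h 0 1 = 0) (z2' : Z'.h 0 2 = 0)
    (hch : m = 4 → Z.chernNumber = Z'.chernNumber) (p q : ℕ) : Z.h p q = Z'.h p q := by
  have hc : ∀ c ≤ m, ∑ j ∈ Finset.range (m - c + 1), (Z.h (c + j) j : ℤ) =
      ∑ j ∈ Finset.range (m - c + 1), (Z'.h (c + j) j : ℤ) := by
    intro c hc
    have h1 := congrArg (fun f => f.coeff (c : ℤ)) hcol
    simp only [Z.coeff_gen_cut _ hc, Z'.coeff_gen_cut _ hc, one_pow, one_mul] at h1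
    exact h1
  have h00 : Z.h 0 0 = 1 := Z.connected
  have h00' : Z'.h 0 0 = 1 := Z'.connected
  rw [Z.h_conj] at z1 z2
  rw [Z'.h_conj] at z1' z2'
  refine reduce Z Z' (fun _ _ => True) (fun _ _ _ => trivial) (fun _ _ _ _ _ => trivial)
    (fun p q hqp hpq _ => ?_) p q trivial
  have hfl : ∀ p q, p ≤ m → q ≤ m → Z.h p q = Z.h (m - q) (m - p) :=
    fun p q hp hq => Z.h_flip hp hq
  have hfl' : ∀ p q, p ≤ m → q ≤ m → Z'.h p q = Z'.h (m - q) (m - p) :=
    fun p q hp hq => Z'.h_flip hp hq
  have hp : p ≤ 4 := by omega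
  have hq : q ≤ 2 := by omega
  clear hcol
  interval_cases m
  · have : p = 0 := by omega
    have : q = 0 := by omega
    subst p q
    omega
  · have : q = 0 := by omega
    subst q
    have : p = 0 ∨ p = 1 := by omega
    rcases this with rfl | rfl <;> omega
  · have c0 := hc 0 (by norm_num)
    simp only [Finset.sum_range_succ, Finset.sum_range_zero] at c0
    norm_num at c0
    have e1 := hfl 2 2 (by norm_num) (by norm_num)
    have e1' := hfl' 2 2 (by norm_num) (by norm_num)
    norm_num at e1 e1'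
    interval_cases p <;> interval_cases q <;> omega
  · have c0 := hc 0 (by norm_num)
    have c1 := hc 1 (by norm_num)
    have c3 := hc 3 (by norm_num)
    simp only [Finset.sum_range_succ, Finset.sum_range_zero] at c0 c1 c3
    norm_num at c0 c1 c3
    have e1 := hfl 3 3 (by norm_num) (by norm_num)
    have e1' := hfl' 3 3 (by norm_num) (by norm_num)
    have e2 := hfl 2 2 (by norm_num) (by norm_num)
    have e2' := hfl' 2 2 (by norm_num) (by norm_num)
    have e3 := hfl 3 2 (by norm_num) (by norm_num)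
    have e3' := hfl' 3 2 (by norm_num) (by norm_num)
    norm_num at e1 e1' e2 e2' e3 e3'
    interval_cases p <;> interval_cases q <;> omega
  · have c0 := hc 0 (by norm_num)
    have c1 := hc 1 (by norm_num)
    have c2 := hc 2 (by norm_num)
    have c3 := hc 3 (by norm_num)
    have c4 := hc 4 (by norm_num)
    have ch := hch rfl
    unfold HodgeRing.chernNumber at ch
    simp only [Finset.sum_range_succ, Finset.sum_range_zero] at c0 c1 c2 c3 c4 ch
    norm_num at c0 c1 c2 c3 c4 ch
    have e1 := hfl 4 4 (by norm_num) (by norm_num)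
    have e1' := hfl' 4 4 (by norm_num) (by norm_num)
    have e2 := hfl 3 3 (by norm_num) (by norm_num)
    have e2' := hfl' 3 3 (by norm_num) (by norm_num)
    have e3 := hfl 4 3 (by norm_num) (by norm_num)
    have e3' := hfl' 4 3 (by norm_num) (by norm_num)
    have e4 := hfl 3 2 (by norm_num) (by norm_num)
    have e4' := hfl' 3 2 (by norm_num) (by norm_num)
    have e5 := hfl 4 2 (by norm_num) (by norm_num)
    have e5' := hfl' 4 2 (by norm_num) (by norm_num)
    have e6 := hfl 4 1 (by norm_num) (by norm_num)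
    have e6' := hfl' 4 1 (by norm_num) (by norm_num)
    norm_num at e1 e1' e2 e2' e3 e3' e4 e4' e5 e5' e6 e6'
    have f : ∀ p q, Z.h p q = Z.h q p := Z.h_conj
    have f' : ∀ p q, Z'.h p q = Z'.h q p := Z'.h_conj
    rw [f 0 1, f 0 2, f 0 3, f 0 4, f 1 2, f 1 3, f 1 4, f 2 3, f 2 4, f 3 4,
      f' 0 1, f' 0 2, f' 0 3, f' 0 4, f' 1 2, f' 1 3, f' 1 4, f' 2 3, f' 2 4, f' 3 4] at ch
    interval_cases p <;> interval_cases q <;> omega

end

end Pool.Agent.Hodge81
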